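import Pool.Agent.H23.GB.TargetsA
import Pool.Agent.H31.GB.WIN

/-!
# Row ZPE of the board gb (MP_52e316_nt)
-/

set_option autoImplicit false

namespace Pool.Agent.H31.GB

open MeasureTheory Set Filter Topology Asymptotics Pool.Agent.H34.GA Pool.Agent.H34.GM

/-- rapidly decreasing at `0` and bounded -/
def Rd (f : ℝ → ℂ) : Prop := ContinuousOn f (Ioi 0) ∧
  ∀ K : ℕ, ∃ C : ℝ, 0 ≤ C ∧ ∀ r : ℝ, 0 < r → ‖f r‖ ≤ C * min 1 (r ^ K)

theorem MelA_eq (m : ℕ) (f : ℝ → ℂ) :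
    MelA m f = fun s => mellin f (-((m : ℂ) * (s + ((m : ℂ) - 1) / 2))) := by
  funext s
  unfold MelA mellin
  refine setIntegral_congr_fun measurableSet_Ioi fun r _ => ?_
  show _ * _ = _ • _
  rw [smul_eq_mul, mul_comm]

theorem LmA_eq (m : ℕ) (f : ℝ → ℂ) (lam : ℕ → ℂ) (s : ℂ) :
    LmA m f lam s = MelA m (thA m f lam) s := rfl

theorem re_exp {m : ℕ} (s : ℂ) : (-((m : ℂ) * (s + ((m : ℂ) - 1) / 2))).re =
    -((m : ℝ) * (s.re + ((m : ℝ) - 1) / 2)) := by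
  simp

theorem Rd_top {f : ℝ → ℂ} (hf : Rd f) : f =O[atTop] (fun r : ℝ => r ^ (-(0 : ℝ))) := by
  obtain ⟨C, hC, h⟩ := hf.2 0
  refine IsBigO.of_bound C ?_
  filter_upwards [eventually_gt_atTop 0] with r hr
  have h1 := h r hr
  rw [pow_zero, min_self, mul_one] at h1
  rw [neg_zero, Real.rpow_zero, norm_one, mul_one]
  exact h1

theorem Rd_bot {f : ℝ → ℂ} (hf : Rd f) (K : ℕ) :
    f =O[𝓝[>] 0] (fun r : ℝ => r ^ (-(-(K : ℝ)))) := by
  obtain ⟨C, hC, h⟩ := hf.2 K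
  refine IsBigO.of_bound C ?_
  filter_upwards [self_mem_nhdsWithin] with r hr
  have hr0 : (0 : ℝ) < r := hr
  rw [neg_neg, Real.rpow_natCast, norm_pow, Real.norm_of_nonneg hr0.le]
  exact (h r hr0).trans (mul_le_mul_of_nonneg_left (min_le_right _ _) hC)

/-- the Mellin transform is analytic to the right of `-(m - 1) / 2` -/
theorem mel_diff {m : ℕ} (hm : 1 ≤ m) {f : ℝ → ℂ} (hf : Rd f) {s : ℂ}
    (hs : -(((m : ℝ) - 1) / 2) < s.re) :
    DifferentiableAt ℂ (MelA m f) s ∧ IntegrableOn (fun r => f r * pwm m s r) (Ioi 0) := by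
  have hm0 : (0 : ℝ) < m := by exact_mod_cast hm
  obtain ⟨K, hK⟩ := exists_nat_gt ((m : ℝ) * (s.re + ((m : ℝ) - 1) / 2))
  have hl : LocallyIntegrableOn f (Ioi 0) := hf.1.locallyIntegrableOn measurableSet_Ioi
  have h1 : (-((m : ℂ) * (s + ((m : ℂ) - 1) / 2))).re < 0 := by
    rw [re_exp]
    have : 0 < (m : ℝ) * (s.re + ((m : ℝ) - 1) / 2) := mul_pos hm0 (by linarith)
    linarith
  have h2 : -(K : ℝ) < (-((m : ℂ) * (s + ((m : ℂ) - 1) / 2))).re := by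
    rw [re_exp]
    linarith
  refine ⟨?_, ?_⟩
  · rw [MelA_eq]
    have h3 := mellin_differentiableAt_of_isBigO_rpow hl (Rd_top hf) h1 (Rd_bot hf K) h2
    exact DifferentiableAt.comp (g := mellin f)
      (f := fun s : ℂ => -((m : ℂ) * (s + ((m : ℂ) - 1) / 2))) s h3 (by fun_prop)
  · have h3 := mellinConvergent_of_isBigO_rpow hl (Rd_top hf) h1 (Rd_bot hf K) h2
    refine h3.congr_fun (fun r _ => ?_) measurableSet_Ioi
    show _ • _ = _ * _
    rw [smul_eq_mul, mul_comm]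
    rfl

/-- compactly supported weights -/
theorem Rd_supp {r0 : ℝ} (hr0 : 1 ≤ r0) {ψ : ℝ → ℂ} (hc : ContinuousOn ψ (Ioi 0))
    (hs : ∀ r : ℝ, 0 < r → ψ r ≠ 0 → r0⁻¹ ≤ r ∧ r ≤ r0) : Rd ψ := by
  refine ⟨hc, fun K => ?_⟩
  have h0 : 0 < r0 := by linarith
  obtain ⟨M, hM⟩ := isCompact_Icc.exists_bound_of_continuousOn (s := Icc r0⁻¹ r0)
    (hc.mono fun r hr => lt_of_lt_of_le (inv_pos.2 h0) hr.1)
  refine ⟨max M 0 * r0 ^ K, by positivity, fun r hr => ?_⟩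
  by_cases h : ψ r = 0
  · rw [h, norm_zero]
    positivity
  · obtain ⟨h1, h2⟩ := hs r hr h
    have h3 : 1 ≤ r0 ^ K * min 1 (r ^ K) := by
      rcases le_total 1 (r ^ K) with h4 | h4
      · rw [min_eq_left h4, mul_one]
        exact one_le_pow₀ hr0
      · rw [min_eq_right h4, ← mul_pow]
        refine one_le_pow₀ ?_
        rwa [inv_le_iff_one_le_mul₀ h0, mul_comm] at h1
    calc ‖ψ r‖ ≤ max M 0 * 1 := by
          rw [mul_one]
          exact (hM r ⟨h1, h2⟩).trans (le_max_left _ _)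
      _ ≤ max M 0 * (r0 ^ K * min 1 (r ^ K)) :=
          mul_le_mul_of_nonneg_left h3 (le_max_right _ _)
      _ = _ := by ring

/-- the sum at small arguments -/
theorem thA_bd {m : ℕ} (hm : 1 ≤ m) {f : ℝ → ℂ} (hf : Rd f) {B : ℝ} {lam : ℕ → ℂ}
    (hB : ∀ n : ℕ, 1 ≤ n → ‖(n : ℂ) ^ (((m : ℂ) - 1) / 2) * lam n‖ ≤ B * (n : ℝ) ^ m) (K : ℕ) :
    ∃ C : ℝ, 0 ≤ C ∧ ∀ (n : ℕ) (r : ℝ), 0 < r →
      ‖(if 1 ≤ n then (n : ℂ) ^ (((m : ℂ) - 1) / 2) * lam n *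
        f (r * (n : ℝ) ^ (-(1 / (m : ℝ)))) else 0 : ℂ)‖ ≤
        C * r ^ (m * (m + 2) + K) * ((n : ℝ) ^ 2)⁻¹ := by
  have hm0 : (0 : ℝ) < m := by exact_mod_cast hm
  obtain ⟨C, hC, h⟩ := hf.2 (m * (m + 2) + K)
  have hB0 : 0 ≤ B := by
    have h1 := hB 1 le_rfl
    rw [Nat.cast_one (R := ℝ), one_pow, mul_one] at h1
    exact (norm_nonneg _).trans h1
  refine ⟨B * C, by positivity, fun n r hr => ?_⟩
  by_cases hn : 1 ≤ n
  · have hn0 : (0 : ℝ) < n := by exact_mod_cast hn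
    have hn1 : (1 : ℝ) ≤ n := by exact_mod_cast hn
    rw [if_pos hn, norm_mul]
    have h1 := h (r * (n : ℝ) ^ (-(1 / (m : ℝ)))) (by positivity)
    have h2 : (r * (n : ℝ) ^ (-(1 / (m : ℝ)))) ^ (m * (m + 2) + K) ≤
        r ^ (m * (m + 2) + K) * ((n : ℝ) ^ (m + 2))⁻¹ := by
      rw [mul_pow]
      refine mul_le_mul_of_nonneg_left ?_ (by positivity)
      rw [← Real.rpow_natCast ((n : ℝ) ^ (-(1 / (m : ℝ)))), ← Real.rpow_mul hn0.le,
        ← Real.rpow_natCast (n : ℝ) (m + 2), ← Real.rpow_neg hn0.le]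
      refine Real.rpow_le_rpow_of_exponent_le hn1 ?_
      push_cast
      have e1 : -(1 / (m : ℝ)) * ((m : ℝ) * (m + 2) + K) = -((m : ℝ) + 2) - K / m := by
        field_simp
        ring
      rw [e1]
      have : 0 ≤ (K : ℝ) / m := by positivity
      linarith
    have h3 : ‖f (r * (n : ℝ) ^ (-(1 / (m : ℝ))))‖ ≤
        C * (r ^ (m * (m + 2) + K) * ((n : ℝ) ^ (m + 2))⁻¹) :=
      h1.trans (mul_le_mul_of_nonneg_left ((min_le_right _ _).trans h2) hC)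
    refine (mul_le_mul (hB n hn) h3 (norm_nonneg _) (by positivity)).trans (le_of_eq ?_)
    rw [pow_add (n : ℝ) m 2]
    field_simp
  · rw [if_neg hn, norm_zero]
    positivity

/-- the sum is continuous -/
theorem thA_cont {m : ℕ} (hm : 1 ≤ m) {f : ℝ → ℂ} (hf : Rd f) {B : ℝ} {lam : ℕ → ℂ}
    (hB : ∀ n : ℕ, 1 ≤ n → ‖(n : ℂ) ^ (((m : ℂ) - 1) / 2) * lam n‖ ≤ B * (n : ℝ) ^ m) :
    ContinuousOn (thA m f lam) (Ioi 0) := by
  obtain ⟨C, hC, h⟩ := thA_bd hm hf hB 0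
  intro r0 hr0
  have hr00 : (0 : ℝ) < r0 := hr0
  have h1 : ContinuousOn (thA m f lam) (Ioo 0 (r0 + 1)) := by
    unfold thA
    refine continuousOn_tsum (u := fun n : ℕ => C * (r0 + 1) ^ (m * (m + 2) + 0) *
      ((n : ℝ) ^ 2)⁻¹) (fun n => ?_) ?_ (fun n r hr => ?_)
    · by_cases hn : 1 ≤ n
      · simp only [if_pos hn]
        have hn0 : (0 : ℝ) < n := by exact_mod_cast hn
        refine continuousOn_const.mul (hf.1.comp (continuousOn_id.mul continuousOn_const)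
          fun r hr => ?_)
        exact mul_pos hr.1 (by positivity)
      · simp only [if_neg hn]
        exact continuousOn_const
    · exact (Real.summable_nat_pow_inv.2 (by norm_num)).mul_left _
    · refine (h n r hr.1).trans ?_
      have : r ^ (m * (m + 2) + 0) ≤ (r0 + 1) ^ (m * (m + 2) + 0) :=
        pow_le_pow_left₀ hr.1.le hr.2.le _
      gcongr
  exact (h1.continuousAt (Ioo_mem_nhds hr00 (by linarith))).continuousWithinAt

theorem thA_le {m : ℕ} (hm : 1 ≤ m) {f : ℝ → ℂ} (hf : Rd f) {B : ℝ} {lam : ℕ → ℂ}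
    (hB : ∀ n : ℕ, 1 ≤ n → ‖(n : ℂ) ^ (((m : ℂ) - 1) / 2) * lam n‖ ≤ B * (n : ℝ) ^ m) (K : ℕ) :
    ∃ C : ℝ, 0 ≤ C ∧ ∀ r : ℝ, 0 < r → ‖thA m f lam r‖ ≤ C * r ^ (m * (m + 2) + K) := by
  obtain ⟨C, hC, h⟩ := thA_bd hm hf hB K
  have hs : Summable (fun n : ℕ => ((n : ℝ) ^ 2)⁻¹) := Real.summable_nat_pow_inv.2 (by norm_num)
  refine ⟨C * ∑' n : ℕ, ((n : ℝ) ^ 2)⁻¹, mul_nonneg hC (tsum_nonneg fun n => by positivity),
    fun r hr => ?_⟩
  unfold thA
  refine (tsum_of_norm_bounded (hs.mul_left (C * r ^ (m * (m + 2) + K))).hasSum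
    (fun n => h n r hr)).trans (le_of_eq ?_)
  rw [tsum_mul_left]
  ring

/-- sums which vanish at large arguments -/
theorem Rd_thA {m : ℕ} (hm : 1 ≤ m) {f : ℝ → ℂ} (hf : Rd f) {B R : ℝ} {lam : ℕ → ℂ}
    (hB : ∀ n : ℕ, 1 ≤ n → ‖(n : ℂ) ^ (((m : ℂ) - 1) / 2) * lam n‖ ≤ B * (n : ℝ) ^ m)
    (hR : ∀ r, R < r → thA m f lam r = 0) : Rd (thA m f lam) := by
  refine ⟨thA_cont hm hf hB, fun K => ?_⟩
  obtain ⟨C, hC, h⟩ := thA_le hm hf hB K
  obtain ⟨R1, hR1⟩ : ∃ R1 : ℝ, R1 = max R 1 := ⟨_, rfl⟩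
  have hR11 : 1 ≤ R1 := by
    rw [hR1]
    exact le_max_right _ _
  refine ⟨C * R1 ^ (m * (m + 2) + K), by positivity, fun r hr => ?_⟩
  by_cases hrR : R < r
  · rw [hR r hrR, norm_zero]
    positivity
  · have hr1 : r ≤ R1 := by
      rw [hR1]
      exact (not_lt.1 hrR).trans (le_max_left _ _)
    refine (h r hr).trans ?_
    rw [mul_assoc]
    refine mul_le_mul_of_nonneg_left ?_ hC
    rcases le_total r 1 with h1 | h1
    · have h2 : r ^ K ≤ 1 := pow_le_one₀ hr.le h1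
      rw [min_eq_right h2]
      have h3 : r ^ (m * (m + 2) + K) ≤ r ^ K := pow_le_pow_of_le_one hr.le h1 (by omega)
      have h4 : 1 ≤ R1 ^ (m * (m + 2) + K) := one_le_pow₀ hR11
      have h5 : 0 ≤ r ^ K := by positivity
      nlinarith
    · have h2 : 1 ≤ r ^ K := one_le_pow₀ h1
      rw [min_eq_left h2, mul_one]
      exact pow_le_pow_left₀ hr.le hr1 _

/-- scaling of the absolute values -/
theorem int_norm {m : ℕ} (hm : 1 ≤ m) {ψ : ℝ → ℂ} (s : ℂ) {n : ℕ} (hn : 1 ≤ n) :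
    ∫ r in Ioi (0 : ℝ), ‖ψ (r * (n : ℝ) ^ (-(1 / (m : ℝ)))) * pwm m s r‖ =
      ‖(n : ℂ) ^ (-(s + ((m : ℂ) - 1) / 2))‖ * ∫ r in Ioi (0 : ℝ), ‖ψ r * pwm m s r‖ := by
  have hn0 : (0 : ℝ) < n := by exact_mod_cast hn
  obtain ⟨c, hc⟩ : ∃ c : ℝ, c = (n : ℝ) ^ (-(1 / (m : ℝ))) := ⟨_, rfl⟩
  have hc0 : 0 < c := by
    rw [hc]
    positivity
  have h1 : ∀ r ∈ Ioi (0 : ℝ), ‖ψ (r * (n : ℝ) ^ (-(1 / (m : ℝ)))) * pwm m s r‖ =
      c * ‖(n : ℂ) ^ (-(s + ((m : ℂ) - 1) / 2))‖ * ‖ψ (r * c) * pwm m s (r * c)‖ := by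
    intro r hr
    rw [scal_pwm hm s hn hr, ← hc, norm_mul, norm_mul, norm_mul, norm_mul, Complex.norm_real,
      Real.norm_of_nonneg hc0.le]
    ring
  rw [setIntegral_congr_fun measurableSet_Ioi h1, integral_const_mul]
  have h3 := integral_comp_mul_right_Ioi (fun r => ‖ψ r * pwm m s r‖) 0 hc0
  rw [zero_mul] at h3
  rw [h3, smul_eq_mul]
  field_simp

/-- the Mellin transform of the sum to the right -/
theorem lma_right {m : ℕ} (hm : 1 ≤ m) {f : ℝ → ℂ} (hf : Rd f) {B : ℝ} {lam : ℕ → ℂ}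
    (hB : ∀ n : ℕ, 1 ≤ n → ‖(n : ℂ) ^ (((m : ℂ) - 1) / 2) * lam n‖ ≤ B * (n : ℝ) ^ m)
    {L : ℂ → ℂ} (hL : IsL m 1 lam L) {s : ℂ} (hs : (m : ℝ) + 2 < s.re) :
    LmA m f lam s = L s * MelA m f s := by
  have hm1 : (1 : ℝ) ≤ m := by exact_mod_cast hm
  have hB0 : 0 ≤ B := by
    have h1 := hB 1 le_rfl
    rw [Nat.cast_one (R := ℝ), one_pow, mul_one] at h1
    exact (norm_nonneg _).trans h1
  have hi := (mel_diff hm hf (s := s) (by linarith)).2
  obtain ⟨F, hF⟩ : ∃ F : ℕ → ℝ → ℂ, F = fun (n : ℕ) (r : ℝ) => if 1 ≤ n then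
      (n : ℂ) ^ (((m : ℂ) - 1) / 2) * lam n *
        (f (r * (n : ℝ) ^ (-(1 / (m : ℝ)))) * pwm m s r) else 0 := ⟨_, rfl⟩
  have hF1 : ∀ n : ℕ, 1 ≤ n → F n = fun r => (n : ℂ) ^ (((m : ℂ) - 1) / 2) * lam n *
        (f (r * (n : ℝ) ^ (-(1 / (m : ℝ)))) * pwm m s r) := by
    intro n hn
    rw [hF]
    funext r
    exact if_pos hn
  have hF0 : ∀ n : ℕ, ¬ 1 ≤ n → F n = fun _ => 0 := by
    intro n hn
    rw [hF]
    funext r
    exact if_neg hn
  have hFi : ∀ n, Integrable (F n) (volume.restrict (Ioi 0)) := by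
    intro n
    by_cases hn : 1 ≤ n
    · rw [hF1 n hn]
      exact (int_scal hm s hi hn).1.const_mul _
    · rw [hF0 n hn]
      exact integrable_zero _ _ _
  have hFs : Summable fun n => ∫ r in Ioi (0 : ℝ), ‖F n r‖ := by
    obtain ⟨J, hJ⟩ : ∃ J : ℝ, J = ∫ r in Ioi (0 : ℝ), ‖f r * pwm m s r‖ := ⟨_, rfl⟩
    have hJ0 : 0 ≤ J := by
      rw [hJ]
      exact integral_nonneg fun r => norm_nonneg _
    refine Summable.of_nonneg_of_le (fun n => integral_nonneg fun r => norm_nonneg _) (fun n => ?_)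
      ((Real.summable_nat_pow_inv.2 (by norm_num : 1 < 2)).mul_left (B * J))
    by_cases hn : 1 ≤ n
    · have hn0 : (0 : ℝ) < n := by exact_mod_cast hn
      have hn1 : (1 : ℝ) ≤ n := by exact_mod_cast hn
      rw [hF1 n hn]
      have e1 : ∫ r in Ioi (0 : ℝ), ‖(n : ℂ) ^ (((m : ℂ) - 1) / 2) * lam n *
          (f (r * (n : ℝ) ^ (-(1 / (m : ℝ)))) * pwm m s r)‖ =
          ‖(n : ℂ) ^ (((m : ℂ) - 1) / 2) * lam n‖ *
            (‖(n : ℂ) ^ (-(s + ((m : ℂ) - 1) / 2))‖ * J) := by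
        rw [hJ, ← int_norm hm s hn, ← integral_const_mul]
        refine integral_congr_ae (Filter.Eventually.of_forall fun r => ?_)
        exact norm_mul _ _
      rw [e1]
      have e2 : ‖(n : ℂ) ^ (-(s + ((m : ℂ) - 1) / 2))‖ ≤ ((n : ℝ) ^ m)⁻¹ * ((n : ℝ) ^ 2)⁻¹ := by
        rw [← Complex.ofReal_natCast, Complex.norm_cpow_eq_rpow_re_of_pos hn0,
          ← Real.rpow_natCast (n : ℝ) m, ← Real.rpow_natCast (n : ℝ) 2, ← Real.rpow_neg hn0.le,
          ← Real.rpow_neg hn0.le, ← Real.rpow_add hn0]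
        refine Real.rpow_le_rpow_of_exponent_le hn1 ?_
        simp
        linarith
      calc ‖(n : ℂ) ^ (((m : ℂ) - 1) / 2) * lam n‖ *
            (‖(n : ℂ) ^ (-(s + ((m : ℂ) - 1) / 2))‖ * J)
          ≤ (B * (n : ℝ) ^ m) * ((((n : ℝ) ^ m)⁻¹ * ((n : ℝ) ^ 2)⁻¹) * J) := by
            gcongr
            exact hB n hn
        _ = B * J * ((n : ℝ) ^ 2)⁻¹ := by
            field_simp
    · rw [hF0 n hn]
      simp only [norm_zero, integral_zero]
      positivity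
  have hsw := integral_tsum_of_summable_integral_norm hFi hFs
  have e1 : LmA m f lam s = ∫ r in Ioi (0 : ℝ), ∑' n, F n r := by
    unfold LmA
    refine setIntegral_congr_fun measurableSet_Ioi fun r hr => ?_
    show thA m f lam r * pwm m s r = ∑' n, F n r
    unfold thA
    rw [← tsum_mul_right]
    refine tsum_congr fun n => ?_
    by_cases hn : 1 ≤ n
    · rw [hF1 n hn, if_pos hn, mul_assoc]
    · rw [hF0 n hn, if_neg hn, zero_mul]
  rw [e1, ← hsw, ← (hL.2 s hs).tsum_eq, ← tsum_mul_right]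
  refine tsum_congr fun n => ?_
  by_cases hn : 1 ≤ n
  · have hn0 : (n : ℂ) ≠ 0 := by
      have : 0 < n := hn
      exact_mod_cast this.ne'
    rw [hF1 n hn, if_pos ⟨hn, Nat.coprime_one_right n⟩, integral_const_mul,
      (int_scal hm s hi hn).2]
    have e2 : (n : ℂ) ^ (-s) = (n : ℂ) ^ (((m : ℂ) - 1) / 2) *
        (n : ℂ) ^ (-(s + ((m : ℂ) - 1) / 2)) := by
      rw [← Complex.cpow_add _ _ hn0]
      congr 1
      ring
    rw [e2]
    ring
  · rw [hF0 n hn, if_neg (fun h => hn h.1), integral_zero, zero_mul]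

/-- the Mellin transform of the sum -/
theorem lma_all {m : ℕ} (hm : 1 ≤ m) {f : ℝ → ℂ} (hf : Rd f) {B R : ℝ} {lam : ℕ → ℂ}
    (hB : ∀ n : ℕ, 1 ≤ n → ‖(n : ℂ) ^ (((m : ℂ) - 1) / 2) * lam n‖ ≤ B * (n : ℝ) ^ m)
    (hR : ∀ r, R < r → thA m f lam r = 0)
    {L : ℂ → ℂ} (hL : IsL m 1 lam L) {s : ℂ} (hs : -(((m : ℝ) - 1) / 2) < s.re) :
    LmA m f lam s = L s * MelA m f s := by
  have hm1 : (1 : ℝ) ≤ m := by exact_mod_cast hm
  have hth := Rd_thA hm hf hB hR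
  have hO : IsOpen {s : ℂ | -(((m : ℝ) - 1) / 2) < s.re} :=
    isOpen_lt continuous_const Complex.continuous_re
  have hconv : Convex ℝ {s : ℂ | -(((m : ℝ) - 1) / 2) < s.re} := convex_halfSpace_re_gt _
  have h1 : AnalyticOnNhd ℂ (fun s => LmA m f lam s) {s : ℂ | -(((m : ℝ) - 1) / 2) < s.re} := by
    refine DifferentiableOn.analyticOnNhd (fun z hz => ?_) hO
    exact ((mel_diff hm hth hz).1).differentiableWithinAt
  have h2 : AnalyticOnNhd ℂ (fun s => L s * MelA m f s)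
      {s : ℂ | -(((m : ℝ) - 1) / 2) < s.re} := by
    refine DifferentiableOn.analyticOnNhd (fun z hz => ?_) hO
    exact ((hL.1 z).mul (mel_diff hm hf hz).1).differentiableWithinAt
  have hz0 : (((m : ℝ) + 3 : ℝ) : ℂ) ∈ {s : ℂ | -(((m : ℝ) - 1) / 2) < s.re} := by
    show _ < (((m : ℝ) + 3 : ℝ) : ℂ).re
    rw [Complex.ofReal_re]
    linarith
  have hev : (fun s => LmA m f lam s) =ᶠ[𝓝 (((m : ℝ) + 3 : ℝ) : ℂ)]
      (fun s => L s * MelA m f s) := by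
    have hO2 : IsOpen {s : ℂ | (m : ℝ) + 2 < s.re} :=
      isOpen_lt continuous_const Complex.continuous_re
    have h3 : (((m : ℝ) + 3 : ℝ) : ℂ) ∈ {s : ℂ | (m : ℝ) + 2 < s.re} := by
      show _ < (((m : ℝ) + 3 : ℝ) : ℂ).re
      rw [Complex.ofReal_re]
      linarith
    filter_upwards [hO2.mem_nhds h3] with z hz
    exact lma_right hm hf hB hL hz
  exact h1.eqOn_of_preconnected_of_eventuallyEq h2 hconv.isPreconnected hz0 hev hs

theorem mellin_conj (F : ℝ → ℂ) (w : ℂ) : mellin (fun r => (starRingEnd ℂ) (F r)) w =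
    (starRingEnd ℂ) (mellin F ((starRingEnd ℂ) w)) := by
  unfold mellin
  rw [← integral_conj]
  refine setIntegral_congr_fun measurableSet_Ioi fun r hr => ?_
  have hr0 : (0 : ℝ) < r := hr
  show (r : ℂ) ^ (w - 1) • (starRingEnd ℂ) (F r) =
    (starRingEnd ℂ) ((r : ℂ) ^ ((starRingEnd ℂ) w - 1) • F r)
  rw [smul_eq_mul, smul_eq_mul, map_mul, cpow_pos hr0, cpow_pos hr0, ← Complex.exp_conj, map_mul,
    Complex.conj_ofReal, map_sub, Complex.conj_conj, map_one]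

/-- the functional equation on the critical line, absolute values -/
theorem mel_fe {m : ℕ} (hm : 1 ≤ m) {f g : ℝ → ℂ} {N : ℝ} (hN : 1 ≤ N)
    (hfe : ∀ r : ℝ, 0 < r → g r = ((r ^ (m ^ 2) * N ^ (-((m : ℝ) / 2)) : ℝ) : ℂ) *
      (starRingEnd ℂ) (f (N ^ (1 / (m : ℝ)) / r))) (t : ℝ) :
    ‖MelA m g (1 / 2 + t * Complex.I)‖ = ‖MelA m f (1 / 2 + t * Complex.I)‖ := by
  have hm0 : (0 : ℝ) < m := by exact_mod_cast hm
  have hN0 : 0 < N := by linarith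
  obtain ⟨κ, hκ⟩ : ∃ κ : ℝ, κ = N ^ (1 / (m : ℝ)) := ⟨_, rfl⟩
  have hκ0 : 0 < κ := by
    rw [hκ]
    positivity
  rw [MelA_eq, MelA_eq]
  beta_reduce
  obtain ⟨z, hz⟩ : ∃ z : ℂ, z = -((m : ℂ) * ((1 / 2 + t * Complex.I) + ((m : ℂ) - 1) / 2)) :=
    ⟨_, rfl⟩
  rw [← hz]
  obtain ⟨w, hw⟩ : ∃ w : ℂ, w = (starRingEnd ℂ) (z + ((m ^ 2 : ℕ) : ℂ)) := ⟨_, rfl⟩
  have hwz : -w = z := by
    rw [hw, hz]
    simp only [map_add, map_neg, map_mul, map_div₀, map_sub, map_one, map_ofNat, map_natCast,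
      Complex.conj_ofReal, Complex.conj_I]
    push_cast
    ring
  have hwre : w.re = (m : ℝ) ^ 2 / 2 := by
    have h0 : w = (m : ℂ) * ((1 / 2 + t * Complex.I) + ((m : ℂ) - 1) / 2) := by
      rw [← neg_neg w, hwz, hz, neg_neg]
    rw [h0]
    simp
    ring
  have h1 : mellin g z = ((N ^ (-((m : ℝ) / 2)) : ℝ) : ℂ) * mellin
      (fun r => (starRingEnd ℂ) (f (N ^ (1 / (m : ℝ)) / r))) (z + ((m ^ 2 : ℕ) : ℂ)) := by
    rw [← mellin_cpow_smul, ← smul_eq_mul, ← mellin_const_smul]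
    unfold mellin
    refine setIntegral_congr_fun measurableSet_Ioi fun r hr => ?_
    have hr0 : (0 : ℝ) < r := hr
    show (r : ℂ) ^ (z - 1) • g r = (r : ℂ) ^ (z - 1) • (((N ^ (-((m : ℝ) / 2)) : ℝ) : ℂ) •
      ((r : ℂ) ^ ((m ^ 2 : ℕ) : ℂ) • (starRingEnd ℂ) (f (N ^ (1 / (m : ℝ)) / r))))
    rw [hfe r hr0, Complex.cpow_natCast]
    push_cast
    simp only [smul_eq_mul]
    ring
  have h2 : mellin (fun r => f (N ^ (1 / (m : ℝ)) / r)) w = (κ : ℂ) ^ w * mellin f z := by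
    have h3 := mellin_comp_inv (fun r => f (κ * r)) w
    have h4 := mellin_comp_mul_left f (-w) hκ0
    rw [neg_neg, smul_eq_mul, hwz] at h4
    rw [← h4, ← hwz, ← h3, ← hκ]
    rfl
  rw [h1, mellin_conj, ← hw, h2, map_mul, norm_mul, norm_mul, RCLike.norm_conj, RCLike.norm_conj,
    Complex.norm_real, Real.norm_of_nonneg (by positivity), ← mul_assoc,
    Complex.norm_cpow_eq_rpow_re_of_pos hκ0, hwre, hκ, ← Real.rpow_mul hN0.le,
    ← Real.rpow_add hN0]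
  have e1 : -((m : ℝ) / 2) + 1 / (m : ℝ) * ((m : ℝ) ^ 2 / 2) = 0 := by
    field_simp
    ring
  rw [e1, Real.rpow_zero, one_mul]

/-- ZPE. -/
theorem pf_ZPE : Pool.Agent.H23.GB.T_ZPE := by
  intro m N B r0 lam ψ ψ' L hm hN hr0 hc hc' hs hd hB hfe hL hLM hne
  have hm0 : (0 : ℝ) < m := by exact_mod_cast hm
  have hm1 : (1 : ℝ) ≤ m := by exact_mod_cast hm
  have hN0 : 0 < N := by linarith
  have h00 : 0 < r0 := by linarith
  have hRψ : Rd ψ := Rd_supp hr0 hc hs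
  have hRψ' : Rd ψ' := by
    refine ⟨hc', fun K => ?_⟩
    obtain ⟨C, hC⟩ := hd K
    exact ⟨max C 0, le_max_right _ _, fun r hr => (hC r hr).trans
      (mul_le_mul_of_nonneg_right (le_max_left _ _) (by positivity))⟩
  obtain ⟨κ, hκ⟩ : ∃ κ : ℝ, κ = N ^ (1 / (m : ℝ)) := ⟨_, rfl⟩
  have hκ0 : 0 < κ := by
    rw [hκ]
    positivity
  have hz : ∀ r : ℝ, 0 < r → r < r0⁻¹ → thA m ψ lam r = 0 := by
    intro r hr hrr
    unfold thA
    refine (tsum_congr fun n => ?_).trans tsum_zero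
    by_cases hn : 1 ≤ n
    · have hn0 : (0 : ℝ) < n := by exact_mod_cast hn
      have hn1 : (1 : ℝ) ≤ n := by exact_mod_cast hn
      rw [if_pos hn]
      have h1 : ψ (r * (n : ℝ) ^ (-(1 / (m : ℝ)))) = 0 := by
        by_contra h
        have h2 := (hs _ (by positivity) h).1
        have h3 : (n : ℝ) ^ (-(1 / (m : ℝ))) ≤ 1 :=
          Real.rpow_le_one_of_one_le_of_nonpos hn1 (by
            have : 0 < 1 / (m : ℝ) := by positivity
            linarith)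
        have h4 : r * (n : ℝ) ^ (-(1 / (m : ℝ))) ≤ r := mul_le_of_le_one_right hr.le h3
        linarith
      rw [h1, mul_zero]
    · rw [if_neg hn]
  have hR : ∀ ρ : ℝ, κ * r0 < ρ → thA m ψ' lam ρ = 0 := by
    intro ρ hρ
    have hρ0 : 0 < ρ := lt_trans (by positivity) hρ
    have h1 := hfe (κ / ρ) (by positivity)
    have h2 : κ / ρ < r0⁻¹ := by
      rw [div_lt_iff₀ hρ0, inv_mul_eq_div, lt_div_iff₀ h00]
      exact hρ
    have h3 : N ^ (1 / (m : ℝ)) / (κ / ρ) = ρ := by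
      rw [← hκ]
      field_simp
    rw [hz (κ / ρ) (by positivity) h2, h3] at h1
    have h4 : (((κ / ρ) ^ (m ^ 2) * N ^ (-((m : ℝ) / 2)) : ℝ) : ℂ) ≠ 0 := by
      have : 0 < (κ / ρ) ^ (m ^ 2) * N ^ (-((m : ℝ) / 2)) := by positivity
      exact_mod_cast this.ne'
    have h5 := (mul_eq_zero.1 h1.symm).resolve_left h4
    exact (map_eq_zero _).1 h5
  have hhalf : ∀ t : ℝ, -(((m : ℝ) - 1) / 2) < (1 / 2 + (t : ℂ) * Complex.I).re := by
    intro t
    simp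
    linarith
  have hnorm : ∀ t : ℝ, ‖LmA m ψ lam (1 / 2 + t * Complex.I)‖ =
      ‖LmA m ψ' lam (1 / 2 + t * Complex.I)‖ := fun t =>
    mel_fe (f := thA m ψ' lam) (g := thA m ψ lam) hm hN hfe t
  have hL' : ∀ t : ℝ, LmA m ψ' lam (1 / 2 + t * Complex.I) =
      L (1 / 2 + t * Complex.I) * MelA m ψ' (1 / 2 + t * Complex.I) := fun t =>
    lma_all hm hRψ' hB hR hL (hhalf t)
  have heq : ∀ t : ℝ, L (1 / 2 + t * Complex.I) ≠ 0 →
      ‖MelA m ψ' (1 / 2 + t * Complex.I)‖ = ‖MelA m ψ (1 / 2 + t * Complex.I)‖ := by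
    intro t ht
    have h1 := hnorm t
    rw [hLM, hL' t, norm_mul, norm_mul] at h1
    exact (mul_left_cancel₀ (norm_ne_zero_iff.2 ht) h1).symm
  have hcont : ∀ f : ℝ → ℂ, Rd f →
      Continuous fun t : ℝ => ‖MelA m f (1 / 2 + t * Complex.I)‖ := by
    intro f hf
    refine Continuous.norm (continuous_iff_continuousAt.2 fun t => ?_)
    have h1 := (mel_diff hm hf (hhalf t)).1.continuousAt
    exact ContinuousAt.comp (g := MelA m f) (f := fun t : ℝ => (1 / 2 + (t : ℂ) * Complex.I)) h1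
      (by fun_prop)
  have hden : Dense {t : ℝ | L (1 / 2 + t * Complex.I) ≠ 0} := by
    rw [dense_iff_inter_open]
    rintro U hU ⟨t0, ht0⟩
    by_contra hcon
    have h1 : ∀ t ∈ U, L (1 / 2 + t * Complex.I) = 0 := by
      intro t ht
      by_contra h
      exact hcon ⟨t, ht, h⟩
    obtain ⟨s0, hs0⟩ := hne
    have hG : AnalyticOnNhd ℂ (fun z : ℂ => L (1 / 2 + z * Complex.I)) univ := by
      refine DifferentiableOn.analyticOnNhd (fun z _ => ?_) isOpen_univ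
      have h2 : DifferentiableAt ℂ (fun z : ℂ => (1 / 2 + z * Complex.I)) z := by fun_prop
      exact (DifferentiableAt.comp z (hL.1 _) h2).differentiableWithinAt
    have hfr : ∃ᶠ z in 𝓝[≠] (t0 : ℂ), L (1 / 2 + z * Complex.I) = 0 := by
      have h3 : Tendsto (fun t : ℝ => (t : ℂ)) (𝓝[≠] t0) (𝓝[≠] (t0 : ℂ)) := by
        refine tendsto_nhdsWithin_of_tendsto_nhds_of_eventually_within _ ?_ ?_
        · exact (Complex.continuous_ofReal.tendsto t0).mono_left nhdsWithin_le_nhds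
        · filter_upwards [self_mem_nhdsWithin] with t ht
          intro h
          exact ht (Complex.ofReal_injective h)
      have h4 : ∀ᶠ t : ℝ in 𝓝[≠] t0, L (1 / 2 + (t : ℂ) * Complex.I) = 0 :=
        nhdsWithin_le_nhds (by filter_upwards [hU.mem_nhds ht0] with t ht using h1 t ht)
      exact h3.frequently h4.frequently
    have h5 := hG.eqOn_zero_of_preconnected_of_frequently_eq_zero isPreconnected_univ
      (mem_univ _) hfr (mem_univ ((s0 - 1 / 2) / Complex.I))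
    have h6 : L (1 / 2 + (s0 - 1 / 2) / Complex.I * Complex.I) = 0 := h5
    rw [div_mul_cancel₀ _ Complex.I_ne_zero] at h6
    exact hs0 (by rw [← h6]; congr 1; ring)
  intro t
  have h1 : (fun t : ℝ => ‖MelA m ψ' (1 / 2 + t * Complex.I)‖) =
      fun t : ℝ => ‖MelA m ψ (1 / 2 + t * Complex.I)‖ :=
    (hcont ψ' hRψ').ext_on hden (hcont ψ hRψ) fun t ht => heq t ht
  exact congrFun h1 t

end Pool.Agent.H31.GB
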