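import Mathlib

/-!
# A smooth bump function on the line and its Fourier representation (board gb, MP_52e316_nt)
-/

set_option autoImplicit false

namespace Pool.Agent.H31.GB

open MeasureTheory SchwartzMap FourierTransform
open scoped ContDiff

/-- decay of Schwartz functions -/
theorem sch_dec (f : 𝓢(ℝ, ℂ)) (j : ℕ) :
    ∃ C : ℝ, 0 ≤ C ∧ ∀ x, ‖f x‖ ≤ C * (1 + |x|) ^ (-(j : ℝ)) := by
  refine ⟨2 ^ j * (Finset.Iic (j, 0)).sup (fun m => SchwartzMap.seminorm ℝ m.1 m.2) f,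
    by positivity, fun x => ?_⟩
  have h := SchwartzMap.one_add_le_sup_seminorm_apply (𝕜 := ℝ) (m := (j, 0)) (k := j) (n := 0)
    le_rfl le_rfl f x
  rw [norm_iteratedFDeriv_zero, Real.norm_eq_abs] at h
  have h0 : (0 : ℝ) < (1 + |x|) ^ j := by positivity
  rw [Real.rpow_neg (by positivity), Real.rpow_natCast, ← div_eq_mul_inv, le_div_iff₀ h0, mul_comm]
  exact h

/-- the bump function -/
theorem bump_four : ∃ (w : ℝ → ℝ) (k : ℝ → ℂ),
    ContDiff ℝ ∞ w ∧ Continuous w ∧ (∀ u, 0 ≤ w u) ∧ (∀ u, w u ≠ 0 → |u| ≤ 1) ∧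
    Integrable w ∧ ∫ u, w u = 1 ∧ Continuous k ∧ Integrable k ∧
    (∀ j : ℕ, ∃ C : ℝ, 0 ≤ C ∧ ∀ τ, ‖k τ‖ ≤ C * (1 + |τ|) ^ (-(j : ℝ))) ∧
    ∀ u : ℝ, (w u : ℂ) = ∫ τ : ℝ, k τ * Complex.exp ((τ : ℂ) * u * Complex.I) := by
  let φ : ContDiffBump (0 : ℝ) := ⟨1 / 2, 1, by norm_num, by norm_num⟩
  obtain ⟨w, hw⟩ : ∃ w : ℝ → ℝ, w = φ.normed (volume : Measure ℝ) := ⟨_, rfl⟩
  have hc : HasCompactSupport w := by rw [hw]; exact φ.hasCompactSupport_normed
  have hs : ContDiff ℝ ∞ w := by rw [hw]; exact φ.contDiff_normed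
  have hcC : HasCompactSupport (fun u => (w u : ℂ)) :=
    hc.comp_left (g := fun x : ℝ => (x : ℂ)) Complex.ofReal_zero
  have hsC : ContDiff ℝ ∞ (fun u => (w u : ℂ)) := Complex.ofRealCLM.contDiff.comp hs
  obtain ⟨f, hf⟩ : ∃ f : 𝓢(ℝ, ℂ), f = hcC.toSchwartzMap hsC := ⟨_, rfl⟩
  have hfe : ∀ u, f u = (w u : ℂ) := fun u => by rw [hf]; rfl
  obtain ⟨g, hg⟩ : ∃ g : 𝓢(ℝ, ℂ), g = 𝓕 f := ⟨_, rfl⟩
  have hinv : ∀ u, f u = ∫ v : ℝ, Complex.exp (((2 * Real.pi * (v * u) : ℝ) : ℂ) * Complex.I) *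
      g v := by
    intro u
    have h1 : 𝓕⁻ g = f := by
      rw [hg]
      exact FourierTransform.fourierInv_fourier_eq f
    rw [← h1, fourierInv_coe, Real.fourierInv_eq']
    refine integral_congr_ae (Filter.Eventually.of_forall fun v => ?_)
    show Complex.exp (((2 * Real.pi * inner ℝ v u : ℝ) : ℂ) * Complex.I) • g v = _
    rw [smul_eq_mul]
    have e1 : inner ℝ v u = v * u := mul_comm u v
    rw [e1]
  have hpi : (0 : ℝ) < 2 * Real.pi := by positivity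
  refine ⟨w, fun τ => (((2 * Real.pi)⁻¹ : ℝ) : ℂ) * g (τ / (2 * Real.pi)), hs, hs.continuous, ?_, ?_,
    hs.continuous.integrable_of_hasCompactSupport hc, ?_, ?_, ?_, ?_, ?_⟩
  · intro u
    rw [hw]
    exact φ.nonneg_normed u
  · intro u hu
    rw [hw] at hu
    have h4 : u ∈ Metric.closedBall (0 : ℝ) 1 := by
      have h3 : tsupport (φ.normed (volume : Measure ℝ)) = Metric.closedBall 0 1 :=
        φ.tsupport_normed_eq
      rw [← h3]
      exact subset_tsupport _ hu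
    rwa [mem_closedBall_zero_iff, Real.norm_eq_abs] at h4
  · rw [hw]
    exact φ.integral_normed
  · exact continuous_const.mul (g.continuous.comp (continuous_id.div_const _))
  · exact (g.integrable.comp_div hpi.ne').const_mul _
  · intro j
    obtain ⟨C, hC, h⟩ := sch_dec g j
    refine ⟨C * (2 * Real.pi) ^ j, by positivity, fun τ => ?_⟩
    have h1 := h (τ / (2 * Real.pi))
    have h2 : (2 * Real.pi)⁻¹ ≤ 1 := by
      refine inv_le_one_of_one_le₀ ?_
      have := Real.pi_gt_three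
      linarith
    have h2pi : 1 ≤ 2 * Real.pi := by
      have := Real.pi_gt_three
      linarith
    have h3 : (1 + |τ / (2 * Real.pi)|) ^ (-(j : ℝ)) ≤
        (2 * Real.pi) ^ j * (1 + |τ|) ^ (-(j : ℝ)) := by
      have h5 : 0 ≤ |τ| := abs_nonneg _
      have h4 : (1 + |τ|) / (2 * Real.pi) ≤ 1 + |τ / (2 * Real.pi)| := by
        rw [abs_div, abs_of_pos hpi, div_le_iff₀ hpi, add_mul, div_mul_cancel₀ _ hpi.ne']
        linarith
      refine (Real.rpow_le_rpow_of_nonpos (by positivity) h4 (by simp)).trans (le_of_eq ?_)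
      rw [Real.div_rpow (by positivity) hpi.le, Real.rpow_neg hpi.le, Real.rpow_natCast,
        div_inv_eq_mul, mul_comm]
    rw [norm_mul, Complex.norm_real, Real.norm_of_nonneg (by positivity)]
    calc (2 * Real.pi)⁻¹ * ‖g (τ / (2 * Real.pi))‖ ≤ 1 * ‖g (τ / (2 * Real.pi))‖ :=
          mul_le_mul_of_nonneg_right h2 (norm_nonneg _)
      _ = ‖g (τ / (2 * Real.pi))‖ := one_mul _
      _ ≤ C * (1 + |τ / (2 * Real.pi)|) ^ (-(j : ℝ)) := h1
      _ ≤ C * ((2 * Real.pi) ^ j * (1 + |τ|) ^ (-(j : ℝ))) := mul_le_mul_of_nonneg_left h3 hC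
      _ = _ := by ring
  · intro u
    rw [← hfe, hinv]
    have h1 := Measure.integral_comp_div (fun v : ℝ => Complex.exp
      (((2 * Real.pi * (v * u) : ℝ) : ℂ) * Complex.I) * g v) (2 * Real.pi)
    rw [abs_of_pos hpi] at h1
    have h2 : ∀ τ : ℝ, (((2 * Real.pi)⁻¹ : ℝ) : ℂ) * g (τ / (2 * Real.pi)) *
        Complex.exp ((τ : ℂ) * u * Complex.I) = (((2 * Real.pi)⁻¹ : ℝ) : ℂ) *
        (Complex.exp (((2 * Real.pi * (τ / (2 * Real.pi) * u) : ℝ) : ℂ) * Complex.I) *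
          g (τ / (2 * Real.pi))) := by
      intro τ
      have e1 : 2 * Real.pi * (τ / (2 * Real.pi) * u) = τ * u := by
        field_simp
      rw [e1]
      push_cast
      ring
    simp only [h2]
    rw [integral_const_mul, h1, Complex.real_smul, ← mul_assoc, ← Complex.ofReal_mul,
      inv_mul_cancel₀ hpi.ne', Complex.ofReal_one, one_mul]

end Pool.Agent.H31.GB
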