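import Pool.Agent.H23.GB.Targets9
import Pool.Agent.H27.GW.GF

/-!
# Gaussian asymptotics of the numbers of formal relations (module F9)
-/

set_option autoImplicit false

open Finset
open scoped Classical Nat

namespace Pool.Agent.H31.GB

open Pool.Agent.H23.GW Pool.Agent.H23.GA Pool.Agent.H23.GB

noncomputable section

section chars

variable (N : ℕ) [NeZero N]

/-- the standard character -/
def e (x : ZMod N) : ℂ := ZMod.stdAddChar x

lemma e_zero : e N 0 = 1 := by simp [e]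

lemma e_add (x y : ZMod N) : e N (x + y) = e N x * e N y := by
  simp [e, AddChar.map_add_eq_mul]

lemma e_ne (x : ZMod N) : e N x ≠ 0 := by
  intro h
  have h1 : e N (x + -x) = 1 := by rw [add_neg_cancel, e_zero]
  rw [e_add, h, zero_mul] at h1
  exact zero_ne_one h1

lemma e_neg (x : ZMod N) : e N (-x) = (e N x)⁻¹ := by
  have h1 : e N (x + -x) = 1 := by rw [add_neg_cancel, e_zero]
  rw [e_add] at h1
  exact eq_inv_of_mul_eq_one_right h1

lemma e_zsmul (n : ℤ) (x : ZMod N) : e N (x * n) = e N x ^ n := by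
  have h := AddChar.map_zsmul_eq_zpow (ZMod.stdAddChar (N := N)) n x
  rw [zsmul_eq_mul, mul_comm] at h
  exact h

lemma e_sum {ι : Type} (s : Finset ι) (f : ι → ZMod N) : e N (∑ i ∈ s, f i) = ∏ i ∈ s, e N (f i) := by
  induction s using Finset.induction_on with
  | empty => simp [e_zero]
  | insert a s ha ih => rw [sum_insert ha, prod_insert ha, e_add, ih]

lemma sum_e (y : ZMod N) : ∑ t : ZMod N, e N (t * y) = if y = 0 then (N : ℂ) else 0 := by
  have h := AddChar.sum_mulShift (ψ := ZMod.stdAddChar (N := N)) y (ZMod.isPrimitive_stdAddChar N)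
  unfold e
  rw [h]
  by_cases hy : y = 0
  · simp [hy, ZMod.card]
  · simp [hy]

/-- twice the cosine -/
def c (x : ZMod N) : ℂ := e N x + e N (-x)

lemma ball_zero (m : ℕ) : ball (Fin m) 0 = {0} := by
  ext x
  simp only [ball, mem_filter, Fintype.mem_piFinset, mem_Icc, mem_singleton]
  constructor
  · rintro ⟨h, -⟩
    funext i
    have := h i
    simp only [Nat.cast_zero, neg_zero] at this
    exact le_antisymm this.2 this.1
  · rintro rfl
    simp

lemma ballsum (m : ℕ) (t : Fin m → ZMod N) :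
    ∑ x ∈ ball (Fin m) 1, ∏ i, e N (t i * (x i : ℤ)) = 1 + ∑ i, c N (t i) := by
  have h := Pool.Agent.H27.GW.gf (Fin m) ℂ (fun i => Units.mk0 (e N (t i)) (e_ne N _)) 1
  simp only [Nat.cast_one, one_mul, Icc_self, sum_singleton, pow_one, Nat.not_even_one, if_false,
    sub_zero, Nat.sub_self, ball_zero, Pi.zero_apply, zpow_zero, prod_const_one,
    mul_one, Units.val_zpow_eq_zpow_val, Units.val_mk0, Units.val_inv_eq_inv_val] at h
  have h2 : ∀ x : Fin m → ℤ, ∏ i, e N (t i * (x i : ℤ)) = ∏ i, e N (t i) ^ x i := by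
    intro x
    refine prod_congr rfl fun i _ => ?_
    rw [e_zsmul]
  simp only [h2, c, e_neg]
  exact h

lemma coord_le {m : ℕ} {x : Fin m → ℤ} (hx : x ∈ ball (Fin m) 1) (k : Fin m) : |x k| ≤ 1 := by
  simp only [ball, mem_filter, Fintype.mem_piFinset, mem_Icc] at hx
  have := hx.1 k
  rw [abs_le]
  exact ⟨by simpa using this.1, by simpa using this.2⟩

lemma coord_sum {m a b : ℕ} (w : Fin a → Fin m → ℤ) (w' : Fin b → Fin m → ℤ) (k : Fin m) :
    (∑ i, w i + 3 • ∑ j, w' j : Fin m → ℤ) k = ∑ i, w i k + 3 * ∑ j, w' j k := by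
  simp [Finset.sum_apply]

/-- the number of relations as an average -/
lemma RW_eq (m a b : ℕ) (hN : a + 3 * b < N) :
    ((RW (ball (Fin m) 1) a b : ℕ) : ℂ) * (N : ℂ) ^ m =
      ∑ t : Fin m → ZMod N, (1 + ∑ i, c N (t i)) ^ a * (1 + ∑ i, c N (3 * t i)) ^ b := by
  have h1 : ∀ t : Fin m → ZMod N, (1 + ∑ i, c N (t i)) ^ a * (1 + ∑ i, c N (3 * t i)) ^ b =
      ∑ q ∈ (Fintype.piFinset fun _ : Fin a => ball (Fin m) 1) ×ˢ
        (Fintype.piFinset fun _ : Fin b => ball (Fin m) 1),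
        ∏ k, e N (t k * (((∑ i, q.1 i + 3 • ∑ j, q.2 j : Fin m → ℤ) k : ℤ) : ZMod N)) := by
    intro t
    rw [← ballsum, ← ballsum, sum_product]
    have h2 : (∑ x ∈ ball (Fin m) 1, ∏ i, e N (t i * (x i : ℤ))) ^ a =
        ∏ _j : Fin a, ∑ x ∈ ball (Fin m) 1, ∏ i, e N (t i * (x i : ℤ)) := by
      rw [prod_const, card_univ, Fintype.card_fin]
    have h3 : (∑ x ∈ ball (Fin m) 1, ∏ i, e N (3 * t i * (x i : ℤ))) ^ b =
        ∏ _j : Fin b, ∑ x ∈ ball (Fin m) 1, ∏ i, e N (3 * t i * (x i : ℤ)) := by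
      rw [prod_const, card_univ, Fintype.card_fin]
    rw [h2, h3, prod_univ_sum, prod_univ_sum, sum_mul_sum]
    refine sum_congr rfl fun w _ => sum_congr rfl fun w' _ => ?_
    rw [prod_comm, prod_comm (s := (univ : Finset (Fin b))), ← prod_mul_distrib]
    refine prod_congr rfl fun k _ => ?_
    rw [← e_sum, ← e_sum, ← e_add]
    congr 1
    rw [coord_sum]
    simp only [Int.cast_add, Int.cast_sum, Int.cast_mul, Int.cast_ofNat, mul_add, mul_sum]
    congr 1
    refine sum_congr rfl fun j _ => ?_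
    ring
  simp only [h1]
  rw [sum_comm]
  have h4 : ∀ q ∈ (Fintype.piFinset fun _ : Fin a => ball (Fin m) 1) ×ˢ
        (Fintype.piFinset fun _ : Fin b => ball (Fin m) 1),
      ∑ t : Fin m → ZMod N,
        ∏ k, e N (t k * (((∑ i, q.1 i + 3 • ∑ j, q.2 j : Fin m → ℤ) k : ℤ) : ZMod N)) =
      if ∑ i, q.1 i + 3 • ∑ j, q.2 j = 0 then (N : ℂ) ^ m else 0 := by
    intro q hq
    set y : Fin m → ℤ := ∑ i, q.1 i + 3 • ∑ j, q.2 j with hy
    have h5 : ∑ t : Fin m → ZMod N, ∏ k, e N (t k * ((y k : ℤ) : ZMod N)) =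
        ∏ k, ∑ t : ZMod N, e N (t * ((y k : ℤ) : ZMod N)) := by
      rw [prod_univ_sum, Fintype.piFinset_univ]
    rw [h5]
    simp only [sum_e]
    have hyb : ∀ k, |y k| < N := by
      intro k
      rw [mem_product, Fintype.mem_piFinset, Fintype.mem_piFinset] at hq
      have e1 : y k = ∑ i, q.1 i k + 3 * ∑ j, q.2 j k := by
        rw [hy, coord_sum]
      have e2 : |∑ i, q.1 i k| ≤ a := by
        refine (abs_sum_le_sum_abs _ _).trans ?_
        calc ∑ i, |q.1 i k| ≤ ∑ _i : Fin a, (1 : ℤ) := sum_le_sum fun i _ => coord_le (hq.1 i) k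
          _ = a := by simp
      have e3 : |∑ j, q.2 j k| ≤ b := by
        refine (abs_sum_le_sum_abs _ _).trans ?_
        calc ∑ j, |q.2 j k| ≤ ∑ _i : Fin b, (1 : ℤ) := sum_le_sum fun i _ => coord_le (hq.2 i) k
          _ = b := by simp
      rw [e1]
      rw [abs_le] at e2 e3
      rw [abs_lt]
      have hN' : (a : ℤ) + 3 * b < N := by exact_mod_cast hN
      constructor <;> linarith [e2.1, e2.2, e3.1, e3.2]
    have h6 : ∀ k, ((y k : ℤ) : ZMod N) = 0 ↔ y k = 0 := by
      intro k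
      rw [ZMod.intCast_zmod_eq_zero_iff_dvd]
      constructor
      · intro hd
        exact Int.eq_zero_of_abs_lt_dvd hd (hyb k)
      · intro h; rw [h]; exact dvd_zero _
    by_cases h0 : y = 0
    · rw [if_pos h0]
      have h7 : ∀ k, (if ((y k : ℤ) : ZMod N) = 0 then (N : ℂ) else 0) = N := by
        intro k
        rw [if_pos]
        rw [h6 k]
        exact congrFun h0 k
      rw [prod_congr rfl fun k _ => h7 k, prod_const, card_univ, Fintype.card_fin]
    · rw [if_neg h0]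
      obtain ⟨k, hk⟩ : ∃ k, y k ≠ 0 := by
        by_contra hcon
        push Not at hcon
        exact h0 (funext hcon)
      refine prod_eq_zero (mem_univ k) ?_
      rw [if_neg]
      rw [h6]
      exact hk
  rw [sum_congr rfl h4, RW, sum_ite, sum_const_zero, add_zero, sum_const, nsmul_eq_mul]
  congr!

/-- mixed moments of one step -/
def kap (i j : ℕ) : ℂ := (∑ t : ZMod N, c N t ^ i * c N (3 * t) ^ j) / N

lemma sum_c (y : ZMod N) (hy : y ≠ 0) : ∑ t : ZMod N, c N (y * t) = 0 := by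
  have h1 := sum_e N y
  have h2 := sum_e N (-y)
  rw [if_neg hy] at h1
  rw [if_neg (by simpa using hy)] at h2
  simp only [c, sum_add_distrib]
  have h3 : ∑ t : ZMod N, e N (y * t) = 0 := by rw [← h1]; simp only [mul_comm]
  have h4 : ∑ t : ZMod N, e N (-(y * t)) = 0 := by
    rw [← h2]
    refine sum_congr rfl fun t _ => ?_
    congr 1; ring
  rw [h3, h4, add_zero]

lemma c_mul (x y : ZMod N) : c N x * c N y = c N (x + y) + c N (x - y) := by
  simp only [c, sub_eq_add_neg, neg_add, neg_neg, e_add]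
  ring

variable {N}

omit [NeZero N] in
lemma nz (hN : 7 ≤ N) (k : ℕ) (hk : 1 ≤ k) (hk6 : k ≤ 6) : ((k : ℕ) : ZMod N) ≠ 0 := by
  intro h
  rw [ZMod.natCast_eq_zero_iff] at h
  have := Nat.le_of_dvd (by omega) h
  omega

lemma kap00 : kap N 0 0 = 1 := by
  have : (N : ℂ) ≠ 0 := Nat.cast_ne_zero.mpr (NeZero.ne N)
  simp [kap, ZMod.card, this]

lemma kap10 (hN : 7 ≤ N) : kap N 1 0 = 0 := by
  have h := sum_c N 1 (by simpa using nz hN 1 le_rfl (by norm_num))
  simp only [one_mul] at h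
  simp [kap, h]

lemma kap01 (hN : 7 ≤ N) : kap N 0 1 = 0 := by
  have h := sum_c N 3 (by simpa using nz hN 3 (by norm_num) (by norm_num))
  simp [kap, h]

lemma kap11 (hN : 7 ≤ N) : kap N 1 1 = 0 := by
  have h := sum_c N 4 (by simpa using nz hN 4 (by norm_num) (by norm_num))
  have h' := sum_c N 2 (by simpa using nz hN 2 (by norm_num) (by norm_num))
  have : ∀ t : ZMod N, c N t ^ 1 * c N (3 * t) ^ 1 = c N (4 * t) + c N (2 * t) := by
    intro t
    have h2 : c N (t - 3 * t) = c N (2 * t) := by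
      rw [show t - 3 * t = -(2 * t) by ring]
      simp only [c, neg_neg]
      rw [add_comm]
    rw [pow_one, pow_one, c_mul, h2]
    congr 2; ring
  unfold kap
  rw [sum_congr rfl fun t _ => this t]
  simp [sum_add_distrib, h, h']

lemma c_zero : c N 0 = 2 := by
  simp [c, e_zero]; norm_num

lemma kap20 (hN : 7 ≤ N) : kap N 2 0 = 2 := by
  have h0 : (N : ℂ) ≠ 0 := Nat.cast_ne_zero.mpr (NeZero.ne N)
  have h := sum_c N 2 (by simpa using nz hN 2 (by norm_num) (by norm_num))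
  have : ∀ t : ZMod N, c N t ^ 2 * c N (3 * t) ^ 0 = c N (2 * t) + 2 := by
    intro t
    rw [pow_zero, mul_one, pow_two, c_mul, sub_self, c_zero]
    congr 2; ring
  unfold kap
  rw [sum_congr rfl fun t _ => this t, sum_add_distrib, h, zero_add, sum_const, card_univ,
    ZMod.card, nsmul_eq_mul]
  field_simp

lemma kap02 (hN : 7 ≤ N) : kap N 0 2 = 2 := by
  have h0 : (N : ℂ) ≠ 0 := Nat.cast_ne_zero.mpr (NeZero.ne N)
  have h := sum_c N 6 (by simpa using nz hN 6 (by norm_num) (by norm_num))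
  have : ∀ t : ZMod N, c N t ^ 0 * c N (3 * t) ^ 2 = c N (6 * t) + 2 := by
    intro t
    rw [pow_zero, one_mul, pow_two, c_mul, sub_self, c_zero]
    congr 2; ring
  unfold kap
  rw [sum_congr rfl fun t _ => this t, sum_add_distrib, h, zero_add, sum_const, card_univ,
    ZMod.card, nsmul_eq_mul]
  field_simp

/-- adding one coordinate -/
lemma rec_eq (m a b : ℕ) (hN : a + 3 * b < N) :
    ((RW (ball (Fin (m + 1)) 1) a b : ℕ) : ℂ) = ∑ i ∈ range (a + 1), ∑ j ∈ range (b + 1),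
      (a.choose i : ℂ) * (b.choose j : ℂ) * kap N i j *
        ((RW (ball (Fin m) 1) (a - i) (b - j) : ℕ) : ℂ) := by
  have h0 : (N : ℂ) ≠ 0 := Nat.cast_ne_zero.mpr (NeZero.ne N)
  have hp : (N : ℂ) ^ m ≠ 0 := pow_ne_zero _ h0
  have key := RW_eq N (m + 1) a b hN
  rw [← (Fin.consEquiv (fun _ : Fin (m + 1) => ZMod N)).sum_comp, Fintype.sum_prod_type] at key
  have h1 : ∀ (t₀ : ZMod N) (t : Fin m → ZMod N),
      (1 + ∑ i, c N ((Fin.consEquiv (fun _ : Fin (m + 1) => ZMod N)) (t₀, t) i)) ^ a *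
        (1 + ∑ i, c N (3 * (Fin.consEquiv (fun _ : Fin (m + 1) => ZMod N)) (t₀, t) i)) ^ b =
      ∑ i ∈ range (a + 1), ∑ j ∈ range (b + 1), (a.choose i : ℂ) * (b.choose j : ℂ) *
        (c N t₀ ^ i * c N (3 * t₀) ^ j) *
          ((1 + ∑ i, c N (t i)) ^ (a - i) * (1 + ∑ i, c N (3 * t i)) ^ (b - j)) := by
    intro t₀ t
    have e1 : 1 + ∑ i, c N ((Fin.consEquiv (fun _ : Fin (m + 1) => ZMod N)) (t₀, t) i) =
        c N t₀ + (1 + ∑ i, c N (t i)) := by
      rw [Fin.sum_univ_succ]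
      simp [Fin.consEquiv]
      ring
    have e2 : 1 + ∑ i, c N (3 * (Fin.consEquiv (fun _ : Fin (m + 1) => ZMod N)) (t₀, t) i) =
        c N (3 * t₀) + (1 + ∑ i, c N (3 * t i)) := by
      rw [Fin.sum_univ_succ]
      simp [Fin.consEquiv]
      ring
    rw [e1, e2, add_pow, add_pow, sum_mul_sum]
    refine sum_congr rfl fun i _ => sum_congr rfl fun j _ => ?_
    ring
  simp only [h1] at key
  have h2 : ∑ t₀ : ZMod N, ∑ t : Fin m → ZMod N, ∑ i ∈ range (a + 1), ∑ j ∈ range (b + 1),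
      (a.choose i : ℂ) * (b.choose j : ℂ) * (c N t₀ ^ i * c N (3 * t₀) ^ j) *
        ((1 + ∑ i, c N (t i)) ^ (a - i) * (1 + ∑ i, c N (3 * t i)) ^ (b - j)) =
      ∑ i ∈ range (a + 1), ∑ j ∈ range (b + 1), (a.choose i : ℂ) * (b.choose j : ℂ) *
        ((kap N i j) * N) * (((RW (ball (Fin m) 1) (a - i) (b - j) : ℕ) : ℂ) * (N : ℂ) ^ m) := by
    rw [sum_congr rfl fun t₀ _ => sum_comm]
    rw [sum_comm]
    refine sum_congr rfl fun i _ => ?_
    rw [sum_congr rfl fun t₀ _ => sum_comm]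
    rw [sum_comm]
    refine sum_congr rfl fun j _ => ?_
    rw [RW_eq N m (a - i) (b - j) (by omega)]
    have : kap N i j * N = ∑ t : ZMod N, c N t ^ i * c N (3 * t) ^ j := by
      rw [kap, div_mul_cancel₀ _ h0]
    rw [this, mul_assoc, sum_mul_sum, mul_sum]
    refine sum_congr rfl fun t₀ _ => ?_
    rw [mul_sum]
    refine sum_congr rfl fun t _ => ?_
    ring
  rw [h2, pow_succ] at key
  have h3 : ((RW (ball (Fin (m + 1)) 1) a b : ℕ) : ℂ) * ((N : ℂ) ^ m * N) =
      (∑ i ∈ range (a + 1), ∑ j ∈ range (b + 1),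
      (a.choose i : ℂ) * (b.choose j : ℂ) * kap N i j *
        ((RW (ball (Fin m) 1) (a - i) (b - j) : ℕ) : ℂ)) * ((N : ℂ) ^ m * N) := by
    rw [key, sum_mul]
    refine sum_congr rfl fun i _ => ?_
    rw [sum_mul]
    refine sum_congr rfl fun j _ => ?_
    ring
  exact mul_right_cancel₀ (mul_ne_zero hp h0) h3

end chars

/-- number of formal relations, as a real number -/
def F (m a b : ℕ) : ℝ := RW (ball (Fin m) 1) a b

/-- the recursion -/
lemma rec_real (a b : ℕ) : ∃ κ : ℕ → ℕ → ℝ, (∀ i j, i + j ≤ 2 → κ i j = 0) ∧ ∀ m,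
    F (m + 1) a b = F m a b + 2 * a.choose 2 * F m (a - 2) b + 2 * b.choose 2 * F m a (b - 2) +
      ∑ i ∈ range (a + 1), ∑ j ∈ range (b + 1),
        (a.choose i : ℝ) * (b.choose j : ℝ) * κ i j * F m (a - i) (b - j) := by
  set N := a + 3 * b + 7 with hN
  have : NeZero N := ⟨by omega⟩
  have hN7 : 7 ≤ N := by omega
  let κ : ℕ → ℕ → ℝ := fun i j => if i + j ≤ 2 then 0 else (kap N i j).re
  refine ⟨κ, fun i j h => by simp [κ, h], fun m => ?_⟩
  have hk : ∀ i j, (kap N i j).re = κ i j + (if i = 0 ∧ j = 0 then 1 else 0) +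
      (if i = 2 ∧ j = 0 then 2 else 0) + (if i = 0 ∧ j = 2 then 2 else 0) := by
    intro i j
    by_cases h : i + j ≤ 2
    · have hi : i ≤ 2 := by omega
      have hj : j ≤ 2 := by omega
      simp only [κ, if_pos h]
      interval_cases i <;> interval_cases j <;>
        first
        | (exfalso; omega)
        | simp [kap00, kap10 hN7, kap01 hN7, kap11 hN7, kap20 hN7, kap02 hN7]
    · have e1 : ¬ (i = 0 ∧ j = 0) := by omega
      have e2 : ¬ (i = 2 ∧ j = 0) := by omega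
      have e3 : ¬ (i = 0 ∧ j = 2) := by omega
      simp [κ, h, e1, e2, e3]
  have h1 := congrArg Complex.re (rec_eq (N := N) m a b (by omega))
  rw [Complex.natCast_re, Complex.re_sum] at h1
  have h2 : ∀ i ∈ range (a + 1), (∑ j ∈ range (b + 1),
      (a.choose i : ℂ) * (b.choose j : ℂ) * kap N i j *
        ((RW (ball (Fin m) 1) (a - i) (b - j) : ℕ) : ℂ)).re =
      ∑ j ∈ range (b + 1), ((a.choose i : ℝ) * (b.choose j : ℝ) * κ i j * F m (a - i) (b - j) +
        (if i = 0 ∧ j = 0 then F m a b else 0) +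
        (if i = 2 ∧ j = 0 then 2 * a.choose 2 * F m (a - 2) b else 0) +
        (if i = 0 ∧ j = 2 then 2 * b.choose 2 * F m a (b - 2) else 0)) := by
    intro i _
    rw [Complex.re_sum]
    refine sum_congr rfl fun j _ => ?_
    have e1 : ((a.choose i : ℂ) * (b.choose j : ℂ) * kap N i j *
        ((RW (ball (Fin m) 1) (a - i) (b - j) : ℕ) : ℂ)).re =
        (a.choose i : ℝ) * (b.choose j : ℝ) * (kap N i j).re * F m (a - i) (b - j) := by
      have : (a.choose i : ℂ) * (b.choose j : ℂ) * kap N i j *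
        ((RW (ball (Fin m) 1) (a - i) (b - j) : ℕ) : ℂ) =
        (((a.choose i : ℝ) * (b.choose j : ℝ) * F m (a - i) (b - j) : ℝ) : ℂ) * kap N i j := by
        simp only [F]; push_cast; ring
      rw [this, Complex.re_ofReal_mul]
      ring
    rw [e1, hk]
    by_cases c1 : i = 0 ∧ j = 0
    · obtain ⟨rfl, rfl⟩ := c1; simp [κ]
    by_cases c2 : i = 2 ∧ j = 0
    · obtain ⟨rfl, rfl⟩ := c2
      have hk0 : κ 2 0 = 0 := by simp [κ]
      rw [hk0, if_neg (by decide), if_pos ⟨rfl, rfl⟩, if_neg (by decide), if_neg (by decide),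
        if_pos ⟨rfl, rfl⟩, if_neg (by decide), Nat.choose_zero_right, Nat.sub_zero]
      push_cast
      ring
    by_cases c3 : i = 0 ∧ j = 2
    · obtain ⟨rfl, rfl⟩ := c3
      have hk0 : κ 0 2 = 0 := by simp [κ]
      rw [hk0, if_neg (by decide), if_neg (by decide), if_pos ⟨rfl, rfl⟩, if_neg (by decide),
        if_neg (by decide), if_pos ⟨rfl, rfl⟩, Nat.choose_zero_right, Nat.sub_zero]
      push_cast
      ring
    simp only [if_neg c1, if_neg c2, if_neg c3, add_zero]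
  rw [sum_congr rfl h2] at h1
  simp only [sum_add_distrib] at h1
  have t1 : ∑ i ∈ range (a + 1), ∑ j ∈ range (b + 1), (if i = 0 ∧ j = 0 then F m a b else 0) =
      F m a b := by
    rw [sum_eq_single 0]
    · rw [sum_eq_single 0]
      · simp
      · intro j _ hj
        rw [if_neg]; rintro ⟨-, rfl⟩; exact hj rfl
      · simp
    · intro i _ hi
      refine sum_eq_zero fun j _ => ?_
      rw [if_neg]; rintro ⟨rfl, -⟩; exact hi rfl
    · simp
  have t2 : ∑ i ∈ range (a + 1), ∑ j ∈ range (b + 1),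
      (if i = 2 ∧ j = 0 then 2 * (a.choose 2 : ℝ) * F m (a - 2) b else 0) =
      2 * a.choose 2 * F m (a - 2) b := by
    rw [sum_eq_single 2]
    · rw [sum_eq_single 0]
      · simp
      · intro j _ hj
        rw [if_neg]; rintro ⟨-, rfl⟩; exact hj rfl
      · simp
    · intro i _ hi
      refine sum_eq_zero fun j _ => ?_
      rw [if_neg]; rintro ⟨rfl, -⟩; exact hi rfl
    · intro hi
      have : a.choose 2 = 0 := Nat.choose_eq_zero_of_lt (by simp at hi; omega)
      simp [this]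
  have t3 : ∑ i ∈ range (a + 1), ∑ j ∈ range (b + 1),
      (if i = 0 ∧ j = 2 then 2 * (b.choose 2 : ℝ) * F m a (b - 2) else 0) =
      2 * b.choose 2 * F m a (b - 2) := by
    rw [sum_eq_single 0]
    · rw [sum_eq_single 2]
      · simp
      · intro j _ hj
        rw [if_neg]; rintro ⟨-, rfl⟩; exact hj rfl
      · intro hj
        have : b.choose 2 = 0 := Nat.choose_eq_zero_of_lt (by simp at hj; omega)
        simp [this]
    · intro i _ hi
      refine sum_eq_zero fun j _ => ?_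
      rw [if_neg]; rintro ⟨rfl, -⟩; exact hi rfl
    · simp
  rw [t1, t2, t3] at h1
  show (RW (ball (Fin (m + 1)) 1) a b : ℝ) = _
  rw [h1]
  ring

lemma growth {E : ℕ → ℝ} {C : ℝ} {d : ℕ} (h : ∀ m : ℕ, 1 ≤ m → |E (m + 1) - E m| ≤ C * (m : ℝ) ^ d) :
    ∀ m : ℕ, 1 ≤ m → |E m| ≤ (|E 1| + |C|) * (m : ℝ) ^ (d + 1) := by
  intro m hm
  induction m, hm using Nat.le_induction with
  | base => simp
  | succ m hm ih =>
    have h1 := h m hm
    have hm' : (0 : ℝ) ≤ m := by positivity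
    have h2 : |E (m + 1)| ≤ |E (m + 1) - E m| + |E m| := by
      have := abs_add_le (E (m + 1) - E m) (E m)
      simpa using this
    have h3 : C * (m : ℝ) ^ d ≤ (|E 1| + |C|) * (m : ℝ) ^ d :=
      mul_le_mul_of_nonneg_right ((le_abs_self C).trans (le_add_of_nonneg_left (abs_nonneg _)))
        (by positivity)
    have h4 : (m : ℝ) ^ d + (m : ℝ) ^ (d + 1) ≤ ((m + 1 : ℕ) : ℝ) ^ (d + 1) := by
      have : (m : ℝ) ^ d ≤ ((m : ℝ) + 1) ^ d := pow_le_pow_left₀ hm' (by linarith) d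
      push_cast
      calc (m : ℝ) ^ d + (m : ℝ) ^ (d + 1) = (m : ℝ) ^ d * (m + 1) := by ring
        _ ≤ ((m : ℝ) + 1) ^ d * (m + 1) := mul_le_mul_of_nonneg_right this (by linarith)
        _ = ((m : ℝ) + 1) ^ (d + 1) := by ring
    have hnn : 0 ≤ |E 1| + |C| := by positivity
    nlinarith [mul_le_mul_of_nonneg_left h4 hnn]

/-- crude bound -/
lemma crude (n : ℕ) : ∀ a b : ℕ, a + b = n → ∃ C : ℝ, ∀ m : ℕ, 1 ≤ m → |F m a b| ≤ C * (m : ℝ) ^ (n / 2) := by
  induction n using Nat.strong_induction_on with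
  | _ n ih =>
    intro a b hab
    obtain ⟨κ, hκ, hrec⟩ := rec_real a b
    have hC : ∀ i j : ℕ, ∃ C : ℝ, 3 ≤ i + j ∧ i ≤ a ∧ j ≤ b ∨ (i, j) = (2, 0) ∧ i ≤ a ∨
        (i, j) = (0, 2) ∧ j ≤ b →
        ∀ m : ℕ, 1 ≤ m → |F m (a - i) (b - j)| ≤ C * (m : ℝ) ^ (n / 2 - 1) := by
      intro i j
      by_cases hc : 3 ≤ i + j ∧ i ≤ a ∧ j ≤ b ∨ (i, j) = (2, 0) ∧ i ≤ a ∨
        (i, j) = (0, 2) ∧ j ≤ b
      · have h2 : 2 ≤ i + j ∧ i ≤ a ∧ j ≤ b := by
          rcases hc with h | ⟨h, h'⟩ | ⟨h, h'⟩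
          · exact ⟨by omega, h.2⟩
          · simp only [Prod.mk.injEq] at h; omega
          · simp only [Prod.mk.injEq] at h; omega
        obtain ⟨C, hC⟩ := ih (n - (i + j)) (by omega) (a - i) (b - j) (by omega)
        refine ⟨|C|, fun _ m hm => (hC m hm).trans ?_⟩
        have hm1 : (1 : ℝ) ≤ m := by exact_mod_cast hm
        calc C * (m : ℝ) ^ ((n - (i + j)) / 2) ≤ |C| * (m : ℝ) ^ ((n - (i + j)) / 2) :=
              mul_le_mul_of_nonneg_right (le_abs_self C) (by positivity)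
          _ ≤ |C| * (m : ℝ) ^ (n / 2 - 1) :=
              mul_le_mul_of_nonneg_left (pow_le_pow_right₀ hm1 (by omega)) (abs_nonneg C)
      · exact ⟨0, fun h => absurd h hc⟩
    choose C hC using hC
    set D : ℝ := |2 * a.choose 2 * C 2 0| + |2 * b.choose 2 * C 0 2| +
      ∑ i ∈ range (a + 1), ∑ j ∈ range (b + 1),
        |(a.choose i : ℝ) * (b.choose j : ℝ) * κ i j * C i j| with hD
    have step : ∀ m : ℕ, 1 ≤ m → |F (m + 1) a b - F m a b| ≤ D * (m : ℝ) ^ (n / 2 - 1) := by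
      intro m hm
      have e0 : F (m + 1) a b - F m a b = 2 * a.choose 2 * F m (a - 2) b +
          2 * b.choose 2 * F m a (b - 2) + ∑ i ∈ range (a + 1), ∑ j ∈ range (b + 1),
          (a.choose i : ℝ) * (b.choose j : ℝ) * κ i j * F m (a - i) (b - j) := by
        rw [hrec m]; ring
      have hp : (0 : ℝ) ≤ (m : ℝ) ^ (n / 2 - 1) := by positivity
      have tA : |2 * (a.choose 2 : ℝ) * F m (a - 2) b| ≤
          |2 * a.choose 2 * C 2 0| * (m : ℝ) ^ (n / 2 - 1) := by
        by_cases ha : 2 ≤ a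
        · have := hC 2 0 (Or.inr (Or.inl ⟨rfl, ha⟩)) m hm
          rw [Nat.sub_zero] at this
          rw [abs_mul, abs_mul (2 * (a.choose 2 : ℝ)) (C 2 0), mul_assoc]
          refine mul_le_mul_of_nonneg_left (this.trans ?_) (abs_nonneg _)
          exact mul_le_mul_of_nonneg_right (le_abs_self _) hp
        · have : a.choose 2 = 0 := Nat.choose_eq_zero_of_lt (by omega)
          simp [this]
      have tB : |2 * (b.choose 2 : ℝ) * F m a (b - 2)| ≤
          |2 * b.choose 2 * C 0 2| * (m : ℝ) ^ (n / 2 - 1) := by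
        by_cases hb : 2 ≤ b
        · have := hC 0 2 (Or.inr (Or.inr ⟨rfl, hb⟩)) m hm
          rw [Nat.sub_zero] at this
          rw [abs_mul, abs_mul (2 * (b.choose 2 : ℝ)) (C 0 2), mul_assoc]
          refine mul_le_mul_of_nonneg_left (this.trans ?_) (abs_nonneg _)
          exact mul_le_mul_of_nonneg_right (le_abs_self _) hp
        · have : b.choose 2 = 0 := Nat.choose_eq_zero_of_lt (by omega)
          simp [this]
      have tC : |∑ i ∈ range (a + 1), ∑ j ∈ range (b + 1),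
          (a.choose i : ℝ) * (b.choose j : ℝ) * κ i j * F m (a - i) (b - j)| ≤
          (∑ i ∈ range (a + 1), ∑ j ∈ range (b + 1),
          |(a.choose i : ℝ) * (b.choose j : ℝ) * κ i j * C i j|) * (m : ℝ) ^ (n / 2 - 1) := by
        rw [sum_mul]
        refine (abs_sum_le_sum_abs _ _).trans (sum_le_sum fun i hi => ?_)
        rw [sum_mul]
        refine (abs_sum_le_sum_abs _ _).trans (sum_le_sum fun j hj => ?_)
        by_cases hij : i + j ≤ 2
        · simp [hκ i j hij]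
        · have := hC i j (Or.inl ⟨by omega, by simp at hi; omega, by simp at hj; omega⟩) m hm
          rw [abs_mul _ (F m (a - i) (b - j)), abs_mul _ (C i j),
            mul_assoc |(a.choose i : ℝ) * (b.choose j : ℝ) * κ i j|]
          refine mul_le_mul_of_nonneg_left (this.trans ?_) (abs_nonneg _)
          exact mul_le_mul_of_nonneg_right (le_abs_self _) hp
      rw [e0, hD, add_mul, add_mul]
      exact (abs_add_le _ _).trans (add_le_add ((abs_add_le _ _).trans (add_le_add tA tB)) tC)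
    by_cases hn : 2 ≤ n
    · refine ⟨|F 1 a b| + |D|, fun m hm => ?_⟩
      have := growth (E := fun m => F m a b) step m hm
      rwa [show n / 2 - 1 + 1 = n / 2 by omega] at this
    · -- constant in `m`
      have hconst : ∀ m : ℕ, 1 ≤ m → F m a b = F 1 a b := by
        intro m hm
        induction m, hm using Nat.le_induction with
        | base => rfl
        | succ m hm ihm =>
          rw [hrec m, ihm]
          have e1 : a.choose 2 = 0 := Nat.choose_eq_zero_of_lt (by omega)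
          have e2 : b.choose 2 = 0 := Nat.choose_eq_zero_of_lt (by omega)
          have e3 : ∑ i ∈ range (a + 1), ∑ j ∈ range (b + 1),
              (a.choose i : ℝ) * (b.choose j : ℝ) * κ i j * F m (a - i) (b - j) = 0 := by
            refine sum_eq_zero fun i hi => sum_eq_zero fun j hj => ?_
            simp only [mem_range] at hi hj
            rw [hκ i j (by omega)]; ring
          rw [e1, e2, e3]; simp
      refine ⟨|F 1 a b|, fun m hm => ?_⟩
      rw [hconst m hm, show n / 2 = 0 by omega]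
      simp

lemma F_zero (m : ℕ) : F m 0 0 = 1 := by
  simp [F, RW]

lemma binom_asym (n : ℕ) (hn : 2 ≤ n) : ∃ C : ℝ, ∀ m : ℕ, 1 ≤ m →
    |((m : ℝ) + 1) ^ n - (m : ℝ) ^ n - n * (m : ℝ) ^ (n - 1)| ≤ C * (m : ℝ) ^ (n - 2) := by
  induction n, hn using Nat.le_induction with
  | base =>
    refine ⟨1, fun m _ => ?_⟩
    norm_num
    rw [show ((m : ℝ) + 1) ^ 2 - (m : ℝ) ^ 2 - 2 * m = 1 by ring]
    norm_num
  | succ n hn ih =>
    obtain ⟨C, hC⟩ := ih
    refine ⟨2 * |C| + n, fun m hm => ?_⟩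
    have hm1 : (1 : ℝ) ≤ m := by exact_mod_cast hm
    have h := hC m hm
    obtain ⟨k, rfl⟩ : ∃ k, n = k + 2 := ⟨n - 2, by omega⟩
    rw [show k + 2 - 1 = k + 1 by omega, show k + 2 - 2 = k by omega] at h
    rw [show k + 2 + 1 - 1 = k + 2 by omega, show k + 2 + 1 - 2 = k + 1 by omega]
    have e1 : ((m : ℝ) + 1) ^ (k + 2 + 1) - (m : ℝ) ^ (k + 2 + 1) -
        ((k + 2 + 1 : ℕ) : ℝ) * (m : ℝ) ^ (k + 2) =
        ((m : ℝ) + 1) * (((m : ℝ) + 1) ^ (k + 2) - (m : ℝ) ^ (k + 2) -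
          ((k + 2 : ℕ) : ℝ) * (m : ℝ) ^ (k + 1)) + ((k + 2 : ℕ) : ℝ) * (m : ℝ) ^ (k + 1) := by
      push_cast; ring
    rw [e1]
    refine (abs_add_le _ _).trans ?_
    rw [abs_mul, abs_of_nonneg (by positivity : (0 : ℝ) ≤ (m : ℝ) + 1),
      abs_of_nonneg (by positivity : (0 : ℝ) ≤ ((k + 2 : ℕ) : ℝ) * (m : ℝ) ^ (k + 1)),
      add_mul (2 * |C|)]
    refine add_le_add_left ?_ _
    calc ((m : ℝ) + 1) * |((m : ℝ) + 1) ^ (k + 2) - (m : ℝ) ^ (k + 2) -
          ((k + 2 : ℕ) : ℝ) * (m : ℝ) ^ (k + 1)| ≤ (2 * m) * (|C| * (m : ℝ) ^ k) := by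
          refine mul_le_mul (by linarith) (h.trans ?_) (abs_nonneg _) (by positivity)
          exact mul_le_mul_of_nonneg_right (le_abs_self C) (by positivity)
      _ = 2 * |C| * (m : ℝ) ^ (k + 1) := by ring

/-- leading coefficient -/
def G (α β : ℕ) : ℝ := ((2 * α - 1)‼ * (2 * β - 1)‼ * 2 ^ (α + β) : ℕ)

lemma dfac (α : ℕ) (h : 1 ≤ α) :
    2 * (2 * α).choose 2 * (2 * (α - 1) - 1)‼ = 2 * α * (2 * α - 1)‼ := by
  obtain ⟨k, rfl⟩ : ∃ k, α = k + 1 := ⟨α - 1, by omega⟩
  rw [Nat.choose_two_right, Nat.add_sub_cancel]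
  have h1 : 2 * ((2 * (k + 1)) * (2 * (k + 1) - 1) / 2) = 2 * (k + 1) * (2 * k + 1) := by
    rw [show 2 * (k + 1) - 1 = 2 * k + 1 by omega,
      show 2 * (k + 1) * (2 * k + 1) = 2 * ((k + 1) * (2 * k + 1)) by ring,
      Nat.mul_div_cancel_left _ (by norm_num)]
  rw [h1]
  have h2 : (2 * (k + 1) - 1)‼ = (2 * k + 1) * (2 * k - 1)‼ := by
    rcases Nat.eq_zero_or_pos k with rfl | hk
    · simp
    · rw [show 2 * (k + 1) - 1 = (2 * k - 1) + 2 by omega, Nat.doubleFactorial_add_two]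
      congr 1
      omega
  rw [h2]
  ring

lemma G_left (α β : ℕ) : 2 * ((2 * α).choose 2 : ℝ) * G (α - 1) β = α * G α β := by
  rcases Nat.eq_zero_or_pos α with rfl | h
  · simp
  · have h1 := dfac α h
    have h2 : ((2 * (2 * α).choose 2 * (2 * (α - 1) - 1)‼ : ℕ) : ℝ) =
      ((2 * α * (2 * α - 1)‼ : ℕ) : ℝ) := by rw [h1]
    have h3 : (2 : ℝ) ^ (α + β) = 2 * 2 ^ (α - 1 + β) := by
      rw [show α + β = (α - 1 + β) + 1 by omega]; ring
    unfold G
    push_cast at h2 ⊢
    rw [h3]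
    calc 2 * ((2 * α).choose 2 : ℝ) * (((2 * (α - 1) - 1)‼ : ℝ) * ((2 * β - 1)‼ : ℝ) * 2 ^ (α - 1 + β))
        = (2 * ((2 * α).choose 2 : ℝ) * ((2 * (α - 1) - 1)‼ : ℝ)) *
          ((2 * β - 1)‼ : ℝ) * 2 ^ (α - 1 + β) := by ring
      _ = _ := by rw [h2]; ring

lemma G_symm (α β : ℕ) : G α β = G β α := by
  unfold G
  rw [add_comm α β, mul_comm ((2 * α - 1)‼)]

lemma main (n : ℕ) : ∀ α β : ℕ, α + β = n → ∃ C : ℝ, ∀ m : ℕ, 1 ≤ m →
    |F m (2 * α) (2 * β) - G α β * (m : ℝ) ^ n| ≤ C * (m : ℝ) ^ (n - 1) := by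
  induction n with
  | zero =>
    intro α β h
    obtain ⟨rfl, rfl⟩ : α = 0 ∧ β = 0 := by omega
    exact ⟨0, fun m _ => by simp [F_zero, G]⟩
  | succ n ih =>
    intro α β hab
    obtain ⟨κ, hκ, hrec⟩ := rec_real (2 * α) (2 * β)
    -- the two lower moments
    have hA : ∃ C : ℝ, ∀ m : ℕ, 1 ≤ m →
        |2 * ((2 * α).choose 2 : ℝ) * F m (2 * α - 2) (2 * β) - α * G α β * (m : ℝ) ^ n| ≤
          C * (m : ℝ) ^ (n - 1) ∧ (n = 0 → 2 * ((2 * α).choose 2 : ℝ) * F m (2 * α - 2) (2 * β) =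
            α * G α β) := by
      rcases Nat.eq_zero_or_pos α with rfl | h
      · exact ⟨0, fun m _ => by simp⟩
      · obtain ⟨C, hC⟩ := ih (α - 1) β (by omega)
        refine ⟨2 * ((2 * α).choose 2 : ℝ) * C, fun m hm => ⟨?_, fun hn => ?_⟩⟩
        · have := hC m hm
          rw [show 2 * (α - 1) = 2 * α - 2 by omega] at this
          rw [← G_left, mul_assoc (2 * ((2 * α).choose 2 : ℝ)) (G (α - 1) β), ← mul_sub, abs_mul,
            abs_of_nonneg (by positivity : (0 : ℝ) ≤ 2 * ((2 * α).choose 2 : ℝ)), mul_assoc _ C]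
          exact mul_le_mul_of_nonneg_left this (by positivity)
        · obtain ⟨rfl, rfl⟩ : α = 1 ∧ β = 0 := by omega
          rw [← G_left]
          simp [F_zero, G]
    have hB : ∃ C : ℝ, ∀ m : ℕ, 1 ≤ m →
        |2 * ((2 * β).choose 2 : ℝ) * F m (2 * α) (2 * β - 2) - β * G α β * (m : ℝ) ^ n| ≤
          C * (m : ℝ) ^ (n - 1) ∧ (n = 0 → 2 * ((2 * β).choose 2 : ℝ) * F m (2 * α) (2 * β - 2) =
            β * G α β) := by
      rcases Nat.eq_zero_or_pos β with rfl | h
      · exact ⟨0, fun m _ => by simp⟩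
      · obtain ⟨C, hC⟩ := ih α (β - 1) (by omega)
        refine ⟨2 * ((2 * β).choose 2 : ℝ) * C, fun m hm => ⟨?_, fun hn => ?_⟩⟩
        · have := hC m hm
          rw [show 2 * (β - 1) = 2 * β - 2 by omega] at this
          rw [G_symm α β, ← G_left, G_symm (β - 1) α,
            mul_assoc (2 * ((2 * β).choose 2 : ℝ)) (G α (β - 1)), ← mul_sub, abs_mul,
            abs_of_nonneg (by positivity : (0 : ℝ) ≤ 2 * ((2 * β).choose 2 : ℝ)), mul_assoc _ C]
          exact mul_le_mul_of_nonneg_left this (by positivity)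
        · obtain ⟨rfl, rfl⟩ : β = 1 ∧ α = 0 := by omega
          rw [G_symm, ← G_left]
          simp [F_zero, G]
    -- the remaining terms
    have hR : ∃ C : ℝ, ∀ m : ℕ, 1 ≤ m →
        |∑ i ∈ range (2 * α + 1), ∑ j ∈ range (2 * β + 1), ((2 * α).choose i : ℝ) *
          ((2 * β).choose j : ℝ) * κ i j * F m (2 * α - i) (2 * β - j)| ≤ C * (m : ℝ) ^ (n - 1) ∧
        (n = 0 → ∑ i ∈ range (2 * α + 1), ∑ j ∈ range (2 * β + 1), ((2 * α).choose i : ℝ) *
          ((2 * β).choose j : ℝ) * κ i j * F m (2 * α - i) (2 * β - j) = 0) := by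
      have hC : ∀ i j : ℕ, ∃ C : ℝ, 3 ≤ i + j ∧ i ≤ 2 * α ∧ j ≤ 2 * β →
          ∀ m : ℕ, 1 ≤ m → |F m (2 * α - i) (2 * β - j)| ≤ C * (m : ℝ) ^ (n - 1) := by
        intro i j
        by_cases hc : 3 ≤ i + j ∧ i ≤ 2 * α ∧ j ≤ 2 * β
        · obtain ⟨C, hC⟩ := crude ((2 * α - i) + (2 * β - j)) (2 * α - i) (2 * β - j) rfl
          refine ⟨|C|, fun _ m hm => (hC m hm).trans ?_⟩
          have hm1 : (1 : ℝ) ≤ m := by exact_mod_cast hm
          calc C * (m : ℝ) ^ (((2 * α - i) + (2 * β - j)) / 2) ≤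
              |C| * (m : ℝ) ^ (((2 * α - i) + (2 * β - j)) / 2) :=
                mul_le_mul_of_nonneg_right (le_abs_self C) (by positivity)
            _ ≤ |C| * (m : ℝ) ^ (n - 1) :=
                mul_le_mul_of_nonneg_left (pow_le_pow_right₀ hm1 (by omega)) (abs_nonneg C)
        · exact ⟨0, fun h => absurd h hc⟩
      choose C hC using hC
      refine ⟨∑ i ∈ range (2 * α + 1), ∑ j ∈ range (2 * β + 1),
        |((2 * α).choose i : ℝ) * ((2 * β).choose j : ℝ) * κ i j * C i j|, fun m hm => ⟨?_, ?_⟩⟩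
      · rw [sum_mul]
        refine (abs_sum_le_sum_abs _ _).trans (sum_le_sum fun i hi => ?_)
        rw [sum_mul]
        refine (abs_sum_le_sum_abs _ _).trans (sum_le_sum fun j hj => ?_)
        by_cases hij : i + j ≤ 2
        · simp [hκ i j hij]
        · have := hC i j ⟨by omega, by simp at hi; omega, by simp at hj; omega⟩ m hm
          rw [abs_mul _ (F m (2 * α - i) (2 * β - j)), abs_mul _ (C i j),
            mul_assoc |((2 * α).choose i : ℝ) * ((2 * β).choose j : ℝ) * κ i j|]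
          refine mul_le_mul_of_nonneg_left (this.trans ?_) (abs_nonneg _)
          exact mul_le_mul_of_nonneg_right (le_abs_self _) (by positivity)
      · intro hn
        refine sum_eq_zero fun i hi => sum_eq_zero fun j hj => ?_
        simp only [mem_range] at hi hj
        rw [hκ i j (by omega)]; ring
    obtain ⟨CA, hA⟩ := hA
    obtain ⟨CB, hB⟩ := hB
    obtain ⟨CR, hR⟩ := hR
    have hGs : (α : ℝ) * G α β + β * G α β = (n + 1) * G α β := by
      have : (α : ℝ) + β = n + 1 := by exact_mod_cast hab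
      rw [← this]; ring
    rcases Nat.eq_zero_or_pos n with rfl | hn
    · -- `n + 1 = 1`: exact
      have hconst : ∀ m : ℕ, 1 ≤ m → F m (2 * α) (2 * β) - G α β * m = F 1 (2 * α) (2 * β) - G α β := by
        intro m hm
        induction m, hm using Nat.le_induction with
        | base => simp
        | succ m hm ihm =>
          rw [hrec m, (hA m hm).2 rfl, (hB m hm).2 rfl, (hR m hm).2 rfl, ← ihm]
          push_cast
          linear_combination hGs
      refine ⟨|F 1 (2 * α) (2 * β) - G α β|, fun m hm => ?_⟩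
      rw [zero_add, pow_one, hconst m hm]
      simp
    · obtain ⟨CN, hN⟩ := binom_asym (n + 1) (by omega)
      have step : ∀ m : ℕ, 1 ≤ m →
          |(F (m + 1) (2 * α) (2 * β) - G α β * ((m + 1 : ℕ) : ℝ) ^ (n + 1)) -
            (F m (2 * α) (2 * β) - G α β * (m : ℝ) ^ (n + 1))| ≤
            (CA + CB + CR + |G α β| * CN) * (m : ℝ) ^ (n - 1) := by
        intro m hm
        have e1 := (hA m hm).1
        have e2 := (hB m hm).1
        have e3 := (hR m hm).1
        have e4 := hN m hm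
        rw [show n + 1 - 1 = n by omega, show n + 1 - 2 = n - 1 by omega] at e4
        rw [hrec m]
        have e5 : ∀ A B R : ℝ, (F m (2 * α) (2 * β) + A + B + R -
            G α β * ((m + 1 : ℕ) : ℝ) ^ (n + 1)) -
            (F m (2 * α) (2 * β) - G α β * (m : ℝ) ^ (n + 1)) =
            (A - α * G α β * (m : ℝ) ^ n) + (B - β * G α β * (m : ℝ) ^ n) + R -
              G α β * (((m : ℝ) + 1) ^ (n + 1) - (m : ℝ) ^ (n + 1) -
                ((n + 1 : ℕ) : ℝ) * (m : ℝ) ^ n) := by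
          intro A B R
          push_cast
          linear_combination ((m : ℝ) ^ n) * hGs
        rw [e5]
        refine (abs_sub _ _).trans ?_
        have e6 : |G α β * (((m : ℝ) + 1) ^ (n + 1) - (m : ℝ) ^ (n + 1) -
                ((n + 1 : ℕ) : ℝ) * (m : ℝ) ^ n)| ≤ |G α β| * CN * (m : ℝ) ^ (n - 1) := by
          rw [abs_mul, mul_assoc]
          exact mul_le_mul_of_nonneg_left e4 (abs_nonneg _)
        have e7 := abs_add_three (2 * ((2 * α).choose 2 : ℝ) * F m (2 * α - 2) (2 * β) -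
          α * G α β * (m : ℝ) ^ n) (2 * ((2 * β).choose 2 : ℝ) * F m (2 * α) (2 * β - 2) -
          β * G α β * (m : ℝ) ^ n) (∑ i ∈ range (2 * α + 1), ∑ j ∈ range (2 * β + 1),
          ((2 * α).choose i : ℝ) * ((2 * β).choose j : ℝ) * κ i j * F m (2 * α - i) (2 * β - j))
        linarith
      refine ⟨|F 1 (2 * α) (2 * β) - G α β * ((1 : ℕ) : ℝ) ^ (n + 1)| +
        |CA + CB + CR + |G α β| * CN|, fun m hm => ?_⟩
      have := growth (E := fun m => F m (2 * α) (2 * β) - G α β * (m : ℝ) ^ (n + 1)) step m hm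
      rw [show n - 1 + 1 = n by omega] at this
      exact this

/-- (F9) -/
theorem f9 : T_F9 := by
  intro α β _
  obtain ⟨C, hC⟩ := main (α + β) α β rfl
  exact ⟨C, hC⟩

end

end Pool.Agent.H31.GB
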